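import Pool.Agent.Helper62K2.Sep

/-!
# A closed image of a normal paralindelöf space that is normal but not paralindelöf

In ZFC there are a normal `T₁` paralindelöf space `X` and a closed mapping of `X` onto a normal
`T₁` space `Y` that is not paralindelöf.

The space `X` has the limit points `(a, b)`, where `a : K` and `b : ℕ → Z`, and isolated points.
Here `K` is uncountable and the elements of `Z` code all countable sets of limit points.  An
isolated point is near at most two limit points `(a, b)`, `(a', b')`, up to some level `n`, and then
for `l < n` the code `b l` mentions `(a', b' restricted to l)` and the code `b' l` mentions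
`(a, b restricted to l)`.  The mapping collapses, for every `a`, the closed set of all limit points
with first coordinate `a` to a point.
-/

set_option autoImplicit false

open Set Topology

namespace Pool.Agent.Results.MP_6bd103_gt.ClosedImageFails

/-- A family of subsets of `X` is locally countable if every point of `X` has a neighbourhood that
meets only countably many members of the family. -/
def LocallyCountable {X : Type} [TopologicalSpace X] (𝒱 : Set (Set X)) : Prop :=
  ∀ x : X, ∃ N ∈ 𝓝 x, {V ∈ 𝒱 | (V ∩ N).Nonempty}.Countable

/-- A space is paralindelöf if every open cover has a locally countable open refinement (an open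
cover each member of which lies in a member of the given cover). -/
def Paralindelof (X : Type) [TopologicalSpace X] : Prop :=
  ∀ 𝒰 : Set (Set X), (∀ U ∈ 𝒰, IsOpen U) → ⋃₀ 𝒰 = univ →
    ∃ 𝒱 : Set (Set X), (∀ V ∈ 𝒱, IsOpen V) ∧ ⋃₀ 𝒱 = univ ∧ (∀ V ∈ 𝒱, ∃ U ∈ 𝒰, V ⊆ U) ∧
      LocallyCountable 𝒱

/-- A closed mapping: a continuous surjection that sends closed sets to closed sets. -/
structure ClosedMapping {X Y : Type} [TopologicalSpace X] [TopologicalSpace Y]
    (f : X → Y) : Prop where
  continuous : Continuous f
  surjective : Function.Surjective f
  isClosedMap : IsClosedMap f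

/-- **Closed mappings do not preserve the paralindelöf property**, even when the domain and the
image are normal `T₁` spaces. -/
theorem result : ∃ (X Y : Type) (_ : TopologicalSpace X) (_ : TopologicalSpace Y) (f : X → Y),
    T4Space X ∧ T4Space Y ∧ ClosedMapping f ∧ Paralindelof X ∧ ¬ Paralindelof Y := by
  obtain ⟨c, hc⟩ := Pool.Agent.Helper62K2.exists_surj
  have : Uncountable (Set ℕ) := by
    rw [← Cardinal.aleph0_lt_mk_iff]
    simpa using Cardinal.aleph0_lt_continuum
  exact ⟨Pool.Agent.Helper62K2.Pt c, Pool.Agent.Helper62K2.Qt c, inferInstance, inferInstance,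
    Pool.Agent.Helper62K2.proj, ⟨⟩, ⟨⟩,
    ⟨Pool.Agent.Helper62K2.continuous_proj, Pool.Agent.Helper62K2.surjective_proj,
      Pool.Agent.Helper62K2.isClosedMap_proj⟩,
    Pool.Agent.Helper62K2.paralindelof_Pt, Pool.Agent.Helper62K2.not_PL_Qt hc⟩

end Pool.Agent.Results.MP_6bd103_gt.ClosedImageFails
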