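import Mathlib

/-!
# Perfect images of paralindelöf spaces are paralindelöf

Let `f : X → Y` be a closed mapping (a continuous closed surjection) all of whose fibres are
Lindelöf; for instance any perfect mapping.  If `X` is paralindelöf, then so is `Y`.  No separation
axiom is needed.

Idea.  Let `(U i)` be an open cover of `Y`, let `(V i)` be a locally countable open cover of `X`
with `V i ⊆ f⁻¹ (U i)`.  Each `y` has an open neighbourhood `N y` whose preimage meets `V i` only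
for `i` in a countable set `c y`.  Let `(W q)` be a locally countable open cover of `X` with
`W q ⊆ f⁻¹ (N q)`, and let `G i` be the union of all `W q` with `i ∈ c q`.  Then the sets
`U i ∩ {y | f⁻¹ y ⊆ G i}` form a locally countable open cover of `Y`.
-/

set_option autoImplicit false

open Set Topology

namespace Pool.Agent.Results.MP_6bd103_gt.ImagesLindelofFibres

universe u v

/-- A family of subsets of `X` is locally countable if every point of `X` has a neighbourhood that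
meets only countably many members of the family. -/
def LocallyCountable {X : Type u} [TopologicalSpace X] (𝒱 : Set (Set X)) : Prop :=
  ∀ x : X, ∃ N ∈ 𝓝 x, {V ∈ 𝒱 | (V ∩ N).Nonempty}.Countable

/-- A space is paralindelöf if every open cover has a locally countable open refinement (an open
cover each member of which lies in a member of the given cover). -/
def Paralindelof (X : Type u) [TopologicalSpace X] : Prop :=
  ∀ 𝒰 : Set (Set X), (∀ U ∈ 𝒰, IsOpen U) → ⋃₀ 𝒰 = univ →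
    ∃ 𝒱 : Set (Set X), (∀ V ∈ 𝒱, IsOpen V) ∧ ⋃₀ 𝒱 = univ ∧ (∀ V ∈ 𝒱, ∃ U ∈ 𝒰, V ⊆ U) ∧
      LocallyCountable 𝒱

/-- A closed mapping: a continuous surjection that sends closed sets to closed sets. -/
structure ClosedMapping {X : Type u} {Y : Type v} [TopologicalSpace X] [TopologicalSpace Y]
    (f : X → Y) : Prop where
  continuous : Continuous f
  surjective : Function.Surjective f
  isClosedMap : IsClosedMap f

/-- Indexed shrinking of an open cover of a paralindelöf space. -/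
theorem shrink {X : Type u} [TopologicalSpace X] (hX : Paralindelof X) {ι : Type v}
    {U : ι → Set X} (hU : ∀ i, IsOpen (U i)) (hc : ⋃ i, U i = univ) :
    ∃ V : ι → Set X, (∀ i, IsOpen (V i)) ∧ (∀ i, V i ⊆ U i) ∧ (⋃ i, V i = univ) ∧
      ∀ x, ∃ N : Set X, IsOpen N ∧ x ∈ N ∧ {i | (V i ∩ N).Nonempty}.Countable := by
  classical
  obtain ⟨𝒱, h1, h2, h3, h4⟩ := hX (range U) (by rintro _ ⟨i, rfl⟩; exact hU i)
    (by rw [sUnion_range]; exact hc)
  have h5 : ∀ V ∈ 𝒱, ∃ i, V ⊆ U i := by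
    intro V hV
    obtain ⟨_, ⟨i, rfl⟩, hi⟩ := h3 V hV
    exact ⟨i, hi⟩
  rcases isEmpty_or_nonempty ι with hι | hι
  · exact ⟨U, hU, fun i => subset_rfl, hc, fun x => ⟨univ, isOpen_univ, mem_univ _,
      Set.to_countable _⟩⟩
  choose! g hg using h5
  refine ⟨fun i => ⋃₀ {V ∈ 𝒱 | g V = i}, fun i => isOpen_sUnion fun V hV => h1 V hV.1, ?_, ?_, ?_⟩
  · rintro i x ⟨V, ⟨hV, rfl⟩, hx⟩
    exact hg V hV hx
  · refine eq_univ_of_forall fun x => ?_
    obtain ⟨V, hV, hx⟩ := mem_sUnion.1 (h2 ▸ mem_univ x : x ∈ ⋃₀ 𝒱)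
    exact mem_iUnion.2 ⟨g V, V, ⟨hV, rfl⟩, hx⟩
  · intro x
    obtain ⟨N, hN, hNc⟩ := h4 x
    obtain ⟨O, hON, hO, hxO⟩ := mem_nhds_iff.1 hN
    refine ⟨O, hO, hxO, (hNc.image g).mono ?_⟩
    rintro i ⟨z, ⟨V, ⟨hV, rfl⟩, hz⟩, hzO⟩
    exact ⟨V, ⟨hV, z, hz, hON hzO⟩, rfl⟩

variable {X : Type u} {Y : Type v} [TopologicalSpace X] [TopologicalSpace Y] {f : X → Y}

theorem isOpen_core (hf : IsClosedMap f) {G : Set X} (hG : IsOpen G) :
    IsOpen {y : Y | f ⁻¹' {y} ⊆ G} := by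
  have h : {y : Y | f ⁻¹' {y} ⊆ G} = (f '' Gᶜ)ᶜ := by
    ext y
    simp only [mem_ofPred_eq, mem_compl_iff, mem_image, not_exists, not_and]
    constructor
    · intro h x hx hxy
      exact hx (h hxy)
    · intro h x hx
      by_contra hxG
      exact h x hxG hx
  rw [h]
  exact (hf _ hG.isClosed_compl).isOpen_compl

/-- Along a closed mapping with Lindelöf fibres, a locally countable family upstairs is seen
locally countably downstairs. -/
theorem exists_nhd (hf : ClosedMapping f) (hL : ∀ y, IsLindelof (f ⁻¹' {y})) {ι : Type*}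
    {V : ι → Set X}
    (hV : ∀ x, ∃ N : Set X, IsOpen N ∧ x ∈ N ∧ {i | (V i ∩ N).Nonempty}.Countable) (y : Y) :
    ∃ N : Set Y, IsOpen N ∧ y ∈ N ∧ {i | (V i ∩ f ⁻¹' N).Nonempty}.Countable := by
  choose N hNo hxN hN using hV
  obtain ⟨t, ht, hcov⟩ := (hL y).elim_countable_subcover N hNo
    (fun x _ => mem_iUnion.2 ⟨x, hxN x⟩)
  refine ⟨{z | f ⁻¹' {z} ⊆ ⋃ x ∈ t, N x}, isOpen_core hf.isClosedMap
    (isOpen_biUnion fun x _ => hNo x), hcov, ?_⟩
  refine (ht.biUnion fun x _ => hN x).mono ?_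
  rintro i ⟨x, hx, hxz⟩
  have h1 : x ∈ ⋃ x ∈ t, N x := hxz rfl
  obtain ⟨a, ha, hxa⟩ := mem_iUnion₂.1 h1
  exact mem_iUnion₂.2 ⟨a, ha, x, hx, hxa⟩

/-- **Closed mappings with Lindelöf fibres, in particular perfect mappings, preserve the
paralindelöf property.** -/
theorem result {X : Type u} {Y : Type v} [TopologicalSpace X] [TopologicalSpace Y] (f : X → Y)
    (hf : ClosedMapping f) (hL : ∀ y, IsLindelof (f ⁻¹' {y})) (hX : Paralindelof X) :
    Paralindelof Y := by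
  intro 𝒰 hU hcov
  obtain ⟨V, hVo, hVU, hVc, hVl⟩ := shrink hX (U := fun i : 𝒰 => f ⁻¹' (i : Set Y))
    (fun i => (hU i i.2).preimage hf.continuous)
    (eq_univ_of_forall fun x => by
      obtain ⟨U, hU', hx⟩ := mem_sUnion.1 (hcov ▸ mem_univ (f x) : f x ∈ ⋃₀ 𝒰)
      exact mem_iUnion.2 ⟨⟨U, hU'⟩, hx⟩)
  choose N hNo hyN hN using exists_nhd hf hL hVl
  obtain ⟨W, hWo, hWN, hWc, hWl⟩ := shrink hX (U := fun q : Y => f ⁻¹' (N q))
    (fun q => (hNo q).preimage hf.continuous)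
    (eq_univ_of_forall fun x => mem_iUnion.2 ⟨f x, hyN (f x)⟩)
  -- the sets `G i`
  let G : 𝒰 → Set X := fun i => ⋃ q ∈ {q : Y | (V i ∩ f ⁻¹' (N q)).Nonempty}, W q
  have hGo : ∀ i, IsOpen (G i) := fun i => isOpen_biUnion fun q _ => hWo q
  let H : 𝒰 → Set Y := fun i => (i : Set Y) ∩ {y | f ⁻¹' {y} ⊆ G i}
  refine ⟨range H, ?_, ?_, ?_, ?_⟩
  · rintro _ ⟨i, rfl⟩
    exact (hU i i.2).inter (isOpen_core hf.isClosedMap (hGo i))
  · refine eq_univ_of_forall fun y => ?_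
    obtain ⟨x₀, rfl⟩ := hf.surjective y
    obtain ⟨i, hi⟩ := mem_iUnion.1 (hVc ▸ mem_univ x₀ : x₀ ∈ ⋃ i, V i)
    refine mem_sUnion.2 ⟨H i, ⟨i, rfl⟩, hVU i hi, ?_⟩
    intro x hx
    obtain ⟨q, hq⟩ := mem_iUnion.1 (hWc ▸ mem_univ x : x ∈ ⋃ q, W q)
    refine mem_iUnion₂.2 ⟨q, ⟨x₀, hi, ?_⟩, hq⟩
    have h1 : f x ∈ N q := hWN q hq
    have h2 : f x = f x₀ := hx
    exact show f x₀ ∈ N q from h2 ▸ h1
  · rintro _ ⟨i, rfl⟩
    exact ⟨i, i.2, inter_subset_left⟩
  · intro y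
    obtain ⟨O, hO, hyO, hOc⟩ := exists_nhd hf hL hWl y
    refine ⟨O, hO.mem_nhds hyO, ((hOc.biUnion fun q _ => hN q).image H).mono ?_⟩
    rintro _ ⟨⟨i, rfl⟩, z, ⟨hzi, hz⟩, hzO⟩
    obtain ⟨x, rfl⟩ := hf.surjective z
    obtain ⟨q, hq, hxq⟩ := mem_iUnion₂.1 (hz (rfl : f x = f x) : x ∈ G i)
    exact ⟨i, mem_iUnion₂.2 ⟨q, ⟨x, hxq, hzO⟩, hq⟩, rfl⟩

end Pool.Agent.Results.MP_6bd103_gt.ImagesLindelofFibres
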